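import Pool.Agent.MP_3d0a02_nt.R.Defs
import Pool.Agent.MP_384f6f_nt.V.Hlf

/-!
The descent from a configuration to the configuration of its square roots.
-/

open NumberField Module Finset
open Pool.Agent.MP_9b2bac_nt.B
open Pool.Agent.MP_384f6f_nt.V (NSq root_hlfa)

namespace Pool.Agent.MP_3d0a02_nt.R

theorem root_hlfr {a b : ℕ} (ha : 1 ≤ a) (hb : a < b) {K : Type} [Field K] [NumberField K]
    (h2 : NSq (a * b) K) (η : (𝓞 K)ˣ) (j : ℕ) (x : K)
    (hx : x ^ 2 * (a : K) ^ j = ((η : 𝓞 K) : K) * (b : K) ^ j) :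
    ∃ (η' : (𝓞 K)ˣ) (j' : ℕ), j = 2 * j' ∧ η' ^ 2 = η ∧
      x * (a : K) ^ j' = ((η' : 𝓞 K) : K) * (b : K) ^ j' := by
  have hab : 2 ≤ a * b := by nlinarith
  have a0 : (a : K) ≠ 0 := Nat.cast_ne_zero.2 (by omega)
  have e4 : (x * (a : K) ^ j) ^ 2 = ((η * ((a * b : ℕ) : 𝓞 K) ^ j : 𝓞 K) : K) := by
    simp only [RingOfIntegers.coe_eq_algebraMap, map_mul, map_pow, map_natCast, Nat.cast_mul] at hx ⊢
    rw [mul_pow (a : K)]
    linear_combination (a : K) ^ j * hx
  have e5 : IsIntegral ℤ (x * (a : K) ^ j) := by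
    refine IsIntegral.of_pow two_pos ?_
    rw [e4]
    exact RingOfIntegers.isIntegral_coe _
  obtain ⟨η', j', h3, h4⟩ := root_hlfa hab h2 η j ⟨_, e5⟩ (RingOfIntegers.ext e4)
  have h5 : x * (a : K) ^ j = ((η' : 𝓞 K) : K) * ((a : K) * b) ^ j' := by
    have := congrArg (fun z : 𝓞 K => (z : K)) h3
    simpa only [RingOfIntegers.coe_eq_algebraMap, map_mul, map_pow, map_natCast, Nat.cast_mul,
      RingOfIntegers.map_mk] using this
  have h6 : j = 2 * j' := by
    rw [h5, ← h4] at e4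
    simp only [RingOfIntegers.coe_eq_algebraMap, map_mul, map_pow, map_natCast,
      Units.val_pow_eq_pow_val, mul_pow] at e4
    have u0 : (algebraMap (𝓞 K) K (η' : 𝓞 K)) ^ 2 ≠ 0 := pow_ne_zero _ (Units.coe_ne_zero η')
    have h7 : (((a * b) ^ (2 * j') : ℕ) : K) = ((a * b) ^ j : ℕ) := by
      refine mul_left_cancel₀ u0 ?_
      push_cast at e4 ⊢
      rw [← e4]
      ring
    exact (Nat.pow_right_injective hab (Nat.cast_injective h7)).symm
  refine ⟨η', j', h6, h4, mul_right_cancel₀ (pow_ne_zero j' a0) ?_⟩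
  rw [h6] at h5
  linear_combination h5

theorem hlfr : HLFr := by
  classical
  intro a m J q _ K F _ _ _ _ _ ι I d v A y r h h2 ⟨i₁, hi₁⟩ cfg hr
  obtain ⟨η, j, hy, haff⟩ := cfg.dec
  have p1 := cfg.pos
  have a0 : (a : K) ≠ 0 := Nat.cast_ne_zero.2 (by omega)
  have a1 : (0 : ℝ) < a := by exact_mod_cast p1
  have inj : Function.Injective (algebraMap K F) := (algebraMap K F).injective
  have hsq : ∀ i ∈ A, (r i : F) ^ 2 = algebraMap K F ((y i : K) * (a : K) ^ J) := fun i hi => by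
    have h3 : (r i : F) ^ 2 = algebraMap K F ((y i * (a : 𝓞 K) ^ J : 𝓞 K) : K) :=
      congrArg (fun z : 𝓞 F => (z : F)) (hr i hi).1
    rw [h3]
    simp only [RingOfIntegers.coe_eq_algebraMap, map_mul, map_pow, map_natCast]
  have hn : ∀ i ∈ A, ‖ι (r i : F)‖ = 1 := fun i hi => by
    have n1 := norm_pow_one cfg.nd J
    rw [← n1]
    exact Padic.norm_eq_of_norm_sub_lt_right (by rw [n1]; exact (hr i hi).2)
  have hr0 : ∀ i ∈ A, (r i : F) ≠ 0 := fun i hi h0 => by simpa [h0] using hn i hi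
  obtain ⟨A', hA'⟩ : ∃ A' : Finset I, ∀ i, i ∈ A' ↔
      i ∈ A ∧ ∃ b : K, (r i : F) = algebraMap K F b * r i₁ :=
    ⟨A.filter fun i => ∃ b : K, (r i : F) = algebraMap K F b * r i₁, fun i => mem_filter⟩
  have hsub : A' ⊆ A := fun i hi => ((hA' i).1 hi).1
  have hne : A'.Nonempty := ⟨i₁, (hA' _).2 ⟨hi₁, 1, by simp⟩⟩
  obtain ⟨e, he, hmin⟩ := exists_min_image A' j hne
  have heA := hsub he
  obtain ⟨be, hbe⟩ := ((hA' e).1 he).2
  have hbe0 : algebraMap K F be ≠ 0 := fun h0 => hr0 e heA (by rw [hbe, h0, zero_mul])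
  have hye : y e ≠ 0 := cfg.ne heA
  have hye' : (y e : K) ≠ 0 := by simpa using hye
  have hyK : ∀ i ∈ A, (y i : K) = ((η i : 𝓞 K) : K) * ((m : K) ^ j i * (a : K) ^ (J - j i)) :=
    fun i hi => by
      rw [(hy i hi).2]
      simp only [RingOfIntegers.coe_eq_algebraMap, map_mul, map_pow, map_natCast]
  have hw : ∀ i, ∃ (w : 𝓞 K) (η' : (𝓞 K)ˣ) (j' : ℕ), i ∈ A' →
      algebraMap K F (w : K) * r e = r i * (a : F) ^ (J / 2) ∧
        (w : K) ^ 2 * (y e : K) = y i * (a : K) ^ (2 * (J / 2)) ∧ j' ≤ J / 2 ∧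
        w = η' * ((m : 𝓞 K) ^ j' * (a : 𝓞 K) ^ (J / 2 - j')) ∧ η' ^ 2 = η i * (η e)⁻¹ := by
    intro i
    by_cases hi : i ∈ A'
    · obtain ⟨b, hb⟩ := ((hA' i).1 hi).2
      have e1 : algebraMap K F (b / be) * r e = r i := by
        rw [hb, hbe, map_div₀, ← mul_assoc, div_mul_cancel₀ _ hbe0]
      have e2 : (b / be) ^ 2 * (y e : K) = y i := by
        refine mul_right_cancel₀ (pow_ne_zero J a0) (inj ?_)
        rw [mul_assoc, map_mul, map_pow, ← hsq e heA, ← hsq i (hsub hi), ← mul_pow, e1]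
      obtain ⟨δ, hδ⟩ := Nat.exists_eq_add_of_le (hmin i hi)
      obtain ⟨g, hg⟩ := Nat.exists_eq_add_of_le (hy i (hsub hi)).1
      have e3 : ((η i * (η e)⁻¹ : (𝓞 K)ˣ) : 𝓞 K) * (η e : 𝓞 K) = η i := by
        rw [← Units.val_mul, inv_mul_cancel_right]
      have e3' : (((η i * (η e)⁻¹ : (𝓞 K)ˣ) : 𝓞 K) : K) * ((η e : 𝓞 K) : K) = ((η i : 𝓞 K) : K) := by
        rw [← e3]
        simp only [RingOfIntegers.coe_eq_algebraMap, e3]
        rw [← map_mul, e3]
      have e4 : (b / be) ^ 2 * (a : K) ^ δ =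
          (((η i * (η e)⁻¹ : (𝓞 K)ˣ) : 𝓞 K) : K) * (m : K) ^ δ := by
        refine mul_right_cancel₀ hye' ?_
        rw [mul_right_comm, e2, hyK i (hsub hi), hyK e heA, ← e3', show J - j i = g by omega,
          show J - j e = δ + g by omega, hδ]
        ring
      obtain ⟨η', j', h3, h4, h5⟩ := root_hlfr p1 cfg.lt h2 _ δ _ e4
      have h6 : j' ≤ J / 2 := by omega
      obtain ⟨g', hg'⟩ := Nat.exists_eq_add_of_le h6
      have h7 : ((η' * ((m : 𝓞 K) ^ j' * (a : 𝓞 K) ^ (J / 2 - j')) : 𝓞 K) : K) =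
          b / be * (a : K) ^ (J / 2) := by
        simp only [RingOfIntegers.coe_eq_algebraMap, map_mul, map_pow, map_natCast] at h5 ⊢
        rw [show J / 2 - j' = g' by omega, hg', pow_add, ← mul_assoc, ← h5, mul_assoc]
      refine ⟨_, η', j', fun _ => ⟨?_, ?_, h6, rfl, h4⟩⟩
      · rw [h7, map_mul, map_pow, map_natCast, mul_right_comm, e1]
      · rw [h7, ← e2]
        ring
    · exact ⟨0, 1, 0, fun h => absurd h hi⟩
  choose w η' j' hw using hw
  have n2 := norm_pow_one cfg.nd (J / 2)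
  refine ⟨A', w, hsub, hne, ⟨p1, cfg.lt, cfg.nd, ?_, ?_, ?_, η', j',
    fun i hi => ⟨(hw i hi).2.2.1, (hw i hi).2.2.2.1⟩, ?_⟩, ?_⟩
  · intro i hi i' hi' hh
    refine cfg.inj (hsub hi) (hsub hi') (RingOfIntegers.ext ?_)
    refine mul_right_cancel₀ (pow_ne_zero (2 * (J / 2)) a0) ?_
    rw [← (hw i hi).2.1, ← (hw i' hi').2.1, hh]
  · intro i hi
    have e0 := congrArg ι (hw i hi).1
    rw [map_mul, map_mul, map_pow, map_natCast] at e0
    have e1 : (ι (algebraMap K F (w i : K)) - (a : ℚ_[q]) ^ (J / 2)) * ι (r e : F) =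
        (a : ℚ_[q]) ^ (J / 2) *
          ((ι (r i : F) - (a : ℚ_[q]) ^ J) + -(ι (r e : F) - (a : ℚ_[q]) ^ J)) := by
      linear_combination e0
    have e2 := congrArg norm e1
    rw [norm_mul, norm_mul, hn e heA, mul_one, n2, one_mul] at e2
    refine e2.trans_lt ((IsUltrametricDist.norm_add_le_max _ _).trans_lt ?_)
    rw [norm_neg]
    exact max_lt (hr i (hsub hi)).2 (hr e heA).2
  · obtain ⟨t, ht, ht'⟩ := cfg.ht
    refine ⟨fun σ => (t σ - Real.log ‖σ (y e : K)‖ + (2 * (J / 2) : ℕ) * Real.log a) / 2, ?_,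
      fun σ i hi => ?_⟩
    · rw [← sum_div, sum_add_distrib, sum_sub_distrib, sum_const, card_univ, card_emb,
        nsmul_eq_mul]
      have h3 := cfg.low heA
      have h4 : ((2 * (J / 2) : ℕ) : ℝ) ≤ J := by exact_mod_cast Nat.mul_div_le J 2
      have h5 : 0 ≤ Real.log a := Real.log_nonneg (by exact_mod_cast p1)
      have h6 : (finrank ℚ K : ℝ) * ((2 * (J / 2) : ℕ) * Real.log a) ≤
          finrank ℚ K * (J * Real.log a) := by gcongr
      linarith
    · have p0 : 0 < ‖σ (y e : K)‖ := by simpa using hye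
      refine le_of_sq_le_sq ?_ (Real.exp_pos _).le
      rw [← Real.exp_nat_mul, Nat.cast_ofNat, mul_div_cancel₀ _ two_ne_zero, Real.exp_add,
        Real.exp_sub, Real.exp_log p0, Real.exp_nat_mul, Real.exp_log a1, div_mul_eq_mul_div,
        le_div_iff₀ p0, ← norm_pow, ← norm_mul, ← map_pow, ← map_mul, (hw i hi).2.1, map_mul,
        map_pow, map_natCast, norm_mul, norm_pow, Complex.norm_natCast]
      exact mul_le_mul_of_nonneg_right (ht' σ i (hsub hi)) (by positivity)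
  · intro φ b
    obtain ⟨a, ha⟩ := haff φ (2 * b - φ (Additive.ofMul (η e)))
    refine ⟨fun l => a l / 2, fun i hi => ?_⟩
    have e1 : 2 * φ (Additive.ofMul (η' i)) =
        φ (Additive.ofMul (η i)) - φ (Additive.ofMul (η e)) := by
      have := congrArg (fun u => φ (Additive.ofMul u)) (hw i hi).2.2.2.2
      simpa [sub_eq_add_neg] using this
    have e2 := ha i (hsub hi)
    have e3 : ((2 * φ (Additive.ofMul (η' i)) : ℤ) : ℚ) = _ := congrArg _ e1
    simp only [div_mul_eq_mul_div, ← sum_div]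
    push_cast at e2 e3 ⊢
    linarith
  · intro c s hs
    have : FiniteDimensional K F := Module.Finite.of_restrictScalars_finite ℚ K F
    have aF : (a : F) ^ (J / 2) ≠ 0 := pow_ne_zero _ (Nat.cast_ne_zero.2 (by omega))
    have e1 : ∑ i ∈ A, (c i : F) * ((r i : F) * (a : F) ^ (J / 2) / r e) ^ (2 * s + 1) = 0 := by
      have := congrArg (fun z : 𝓞 F => (z : F)) hs
      simp only [map_sum, map_mul, map_pow, map_intCast, map_zero] at this
      simp only [div_pow, mul_pow, ← mul_div_assoc, ← mul_assoc, ← sum_div, ← sum_mul, this,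
        zero_mul, zero_div]
    have e2 := congrArg (Algebra.trace K F) e1
    rw [map_sum, map_zero, ← sum_subset hsub] at e2
    · have e3 : ∀ i ∈ A', Algebra.trace K F
          ((c i : F) * ((r i : F) * (a : F) ^ (J / 2) / r e) ^ (2 * s + 1)) =
          finrank K F • ((c i : K) * (w i : K) ^ (2 * s + 1)) := by
        intro i hi
        rw [← (hw i hi).1, mul_div_cancel_right₀ _ (hr0 e heA), ← Algebra.trace_algebraMap,
          map_mul (algebraMap K F), map_pow (algebraMap K F), map_intCast (algebraMap K F)]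
      rw [sum_congr rfl e3, ← smul_sum, nsmul_eq_mul,
        mul_eq_zero_iff_left (Nat.cast_ne_zero.2 finrank_pos.ne')] at e2
      refine RingOfIntegers.ext ?_
      simpa using e2
    · intro i hi hi'
      have e3 : ((r i : F) / r e) ^ 2 = algebraMap K F ((y i : K) / y e) := by
        rw [div_pow, hsq i hi, hsq e heA, ← map_div₀, mul_div_mul_right _ _ (pow_ne_zero J a0)]
      have e4 := trace_Hlf e3 fun b hb => hi' ((hA' i).2 ⟨hi, b * be, by
        rw [map_mul, mul_assoc, ← hbe, ← hb, div_mul_cancel₀ _ (hr0 e heA)]⟩)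
      have e5 : (c i : F) * ((r i : F) * (a : F) ^ (J / 2) / r e) ^ (2 * s + 1) =
          ((c i : K) * ((y i : K) / y e) ^ s * ((a : K) ^ (J / 2)) ^ (2 * s + 1)) •
            ((r i : F) / r e) := by
        rw [mul_div_right_comm, mul_pow, pow_succ ((r i : F) / r e), pow_mul, e3, Algebra.smul_def,
          map_mul, map_mul, map_pow, map_pow, map_pow, map_intCast, map_natCast]
        ring
      rw [e5, map_smul, e4, smul_zero]

end Pool.Agent.MP_3d0a02_nt.R
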