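import Pool.Agent.MP_3d0a02_nt.R.Defs
import Pool.Agent.MP_384f6f_nt.V.Kum

/-!
The field generated by the square roots has small degree.
-/

open NumberField Module Finset
open Pool.Agent.MP_9b2bac_nt.B
open Pool.Agent.MP_384f6f_nt.V (cls_kuma)

namespace Pool.Agent.MP_3d0a02_nt.R

theorem kumr : KUMr := by
  classical
  intro a b J q _ K _ _ _ ι I d v A y h hq hc
  let : Algebra K ℚ_[q] := ι.toAlgebra
  have hι : ∀ x, algebraMap K ℚ_[q] x = ι x := fun _ => rfl
  have p1 := hc.pos
  have p2 := hc.lt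
  have n1 := norm_pow_one hc.nd J
  have n0 : (a : ℚ_[q]) ^ J ≠ 0 := fun e => by simp [e] at n1
  have hy' : ∀ i, ι ((y i * (a : 𝓞 K) ^ J : 𝓞 K) : K) = ι (y i : K) * (a : ℚ_[q]) ^ J := fun i => by
    simp only [RingOfIntegers.coe_eq_algebraMap, map_mul, map_pow, map_natCast]
  have hρ : ∀ i, ∃ r : ℚ_[q], i ∈ A → r ^ 2 = ι ((y i * (a : 𝓞 K) ^ J : 𝓞 K) : K) ∧
      ‖r - (a : ℚ_[q]) ^ J‖ < 1 := by
    intro i
    by_cases hi : i ∈ A
    · obtain ⟨r, h1, h2⟩ := hen hq (x := ι (y i : K) / (a : ℚ_[q]) ^ J) (by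
        rw [div_sub_one n0, norm_div, n1, div_one]
        exact hc.one i hi)
      refine ⟨r * (a : ℚ_[q]) ^ J, fun _ => ⟨?_, ?_⟩⟩
      · rw [mul_pow, h1, hy']
        field_simp
      · rw [← sub_one_mul, norm_mul, n1, mul_one]
        exact h2
    · exact ⟨0, fun h => absurd h hi⟩
  choose ρ hρ using hρ
  have hint : ∀ x ∈ ρ '' (A : Set I), IsIntegral K x := by
    rintro _ ⟨i, hi, rfl⟩
    refine IsIntegral.of_pow two_pos ?_
    rw [(hρ i hi).1, ← hι]
    exact isIntegral_algebraMap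
  have hab : 2 ≤ a * b := by nlinarith
  obtain ⟨g, hg⟩ := cls_kuma hab K
  obtain ⟨η₀, j₀, h2, -⟩ := hc.dec
  have a0 : (a : K) ≠ 0 := Nat.cast_ne_zero.2 (by omega)
  obtain ⟨e, he⟩ := span_Kum g (Submonoid.closure (ρ '' (A : Set I)) : Set ℚ_[q]) (by
    intro x hx
    have : ∃ (η : (𝓞 K)ˣ) (j m : ℕ), x ^ 2 =
        ι (((η * ((a * b : ℕ) : 𝓞 K) ^ j : 𝓞 K) : K) * ((a : K) ^ m) ^ 2) := by
      induction hx using Submonoid.closure_induction with
      | mem x hx =>
        obtain ⟨i, hi, rfl⟩ := hx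
        obtain ⟨m, hm⟩ := Nat.exists_eq_add_of_le (h2 i hi).1
        refine ⟨η₀ i, j₀ i, m, ?_⟩
        rw [(hρ i hi).1, (h2 i hi).2, show J - j₀ i = m by omega]
        congr 1
        simp only [map_mul, map_pow, map_natCast, Nat.cast_mul]
        rw [hm]
        ring
      | one => exact ⟨1, 0, 0, by simp⟩
      | mul x x' _ _ hx hx' =>
        obtain ⟨η, j, m, h⟩ := hx
        obtain ⟨η', j', m', h'⟩ := hx'
        refine ⟨η * η', j + j', m + m', ?_⟩
        rw [mul_pow, h, h', ← map_mul]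
        congr 1
        simp only [map_mul, map_pow, map_natCast, Units.val_mul]
        ring
    obtain ⟨η, j, m, h⟩ := this
    obtain ⟨t, w, hw, h'⟩ := hg η j
    exact ⟨t, w * (a : K) ^ m, mul_ne_zero hw (pow_ne_zero _ a0), by
      rw [h, h', hι, mul_pow, mul_assoc]⟩)
  let F := IntermediateField.adjoin K (ρ '' (A : Set I))
  have : Finite (ρ '' (A : Set I)) := (A.finite_toSet.image ρ).to_subtype
  have : FiniteDimensional K F := IntermediateField.finiteDimensional_adjoin hint
  have : NumberField F := NumberField.of_module_finite K F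
  have hF : F.toSubalgebra.toSubmodule ≤ Submodule.span K (Set.range e) := by
    rw [IntermediateField.adjoin_toSubalgebra_of_isAlgebraic fun x hx => (hint x hx).isAlgebraic,
      Algebra.adjoin_eq_span]
    exact he
  have hr : ∀ i, ∃ r : 𝓞 F, i ∈ A → ((r : F) : ℚ_[q]) = ρ i := by
    intro i
    by_cases hi : i ∈ A
    · have hm : ρ i ∈ F := IntermediateField.subset_adjoin _ _ ⟨i, hi, rfl⟩
      have e1 : (⟨ρ i, hm⟩ : F) ^ 2 = algebraMap K F ((y i * (a : 𝓞 K) ^ J : 𝓞 K) : K) :=
        Subtype.ext (hρ i hi).1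
      have e2 : IsIntegral ℤ (⟨ρ i, hm⟩ : F) := by
        refine IsIntegral.of_pow two_pos ?_
        rw [e1]
        exact (y i * (a : 𝓞 K) ^ J).isIntegral_coe.map_of_comp_eq (RingHom.id ℤ) (algebraMap K F)
          (RingHom.ext_int _ _)
      exact ⟨⟨_, e2⟩, fun _ => rfl⟩
    · exact ⟨0, fun h => absurd h hi⟩
  choose r hr using hr
  refine ⟨F, inferInstance, inferInstance, inferInstance, F.val.toRingHom, r,
    RingHom.ext fun _ => rfl, ?_, fun i hi => ⟨?_, ?_⟩⟩
  · have : Module.Finite K (Submodule.span K (Set.range e)) :=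
      Module.Finite.span_of_finite K (Set.finite_range e)
    refine ((Submodule.finrank_mono hF).trans (finrank_range_le_card e)).trans ?_
    have := rank_Kum K
    simp only [Fintype.card_prod, Fintype.card_bool, Fintype.card_pi, prod_const, card_univ,
      Fintype.card_fin]
    rw [← pow_succ', ← pow_succ']
    exact Nat.pow_le_pow_right two_pos (by omega)
  · refine RingOfIntegers.ext (Subtype.ext ?_)
    have := (hρ i hi).1
    rw [← hr i hi] at this
    exact this
  · have := (hρ i hi).2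
    rw [← hr i hi] at this
    exact this

end Pool.Agent.MP_3d0a02_nt.R
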