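import Pool.Agent.MP_3d0a02_nt.R.Defs
import Pool.Agent.MP_9b2bac_nt.B.Set

/-!
The first configuration and the bound for the valuation given a field, for a rational base.
-/

open NumberField Module Finset
open Pool.Agent.MP_9b2bac_nt.B
open Pool.Agent.MP_384f6f_nt.V (NSq PARa)

namespace Pool.Agent.MP_3d0a02_nt.R

theorem inj_setr {K : Type} [Field K] [NumberField K] {a b J : ℕ} (ha : 1 ≤ a) (hab : a < b)
    {u w : (𝓞 K)ˣ} {i j : ℕ} (hi : i ≤ J) (hj : j ≤ J)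
    (h : (u : 𝓞 K) * ((b : 𝓞 K) ^ i * (a : 𝓞 K) ^ (J - i)) =
      (w : 𝓞 K) * ((b : 𝓞 K) ^ j * (a : 𝓞 K) ^ (J - j))) : u = w ∧ i = j := by
  have h1 := sum_log_form (K := K) ha (by omega : 1 ≤ b) u i (J - i)
  rw [h, sum_log_form ha (by omega : 1 ≤ b), Nat.cast_sub hi, Nat.cast_sub hj] at h1
  have d0 : (0 : ℝ) < finrank ℚ K := by exact_mod_cast finrank_pos
  have h2 := mul_left_cancel₀ d0.ne' h1
  have a0 : (0 : ℝ) < a := by exact_mod_cast ha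
  have h3 : Real.log a < Real.log b := Real.log_lt_log a0 (by exact_mod_cast hab)
  have h4 : ((j : ℝ) - i) * (Real.log b - Real.log a) = 0 := by linear_combination h2
  have h5 : (j : ℝ) = i := by
    rcases mul_eq_zero.1 h4 with e | e <;> linarith
  have h6 : j = i := by exact_mod_cast h5
  subst h6
  refine ⟨Units.ext (mul_right_cancel₀ (mul_ne_zero (pow_ne_zero _ ?_) (pow_ne_zero _ ?_)) h), rfl⟩
  · exact Nat.cast_ne_zero.2 (by omega)
  · exact Nat.cast_ne_zero.2 (by omega)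

theorem setr (h1 : UNI_st) (h2 : COO_st) : SETr := by
  classical
  intro C
  obtain ⟨C₁, hC, h1⟩ := h1 C
  refine ⟨C₁, hC, fun a b q _ K _ _ _ ι ha hab hqa hqb hd H J n W hW hn hle => ?_⟩
  obtain ⟨Y, hY, t, ht1, ht2⟩ := h1 K hd H
  have hc : (univ : Finset (ZMod q)).card * n ≤ (Y ×ˢ range J).card := by
    rw [Finset.card_univ, ZMod.card, Finset.card_product, Finset.card_range]
    refine Nat.le_of_mul_le_mul_right ?_ (pow_pos hC (finrank ℚ K))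
    calc q * n * C₁ ^ finrank ℚ K = n * q * C₁ ^ finrank ℚ K := by ring
      _ ≤ J * (C₁ ^ finrank ℚ K * Y.card) := hle.trans (Nat.mul_le_mul_left _ hY)
      _ = _ := by ring
  obtain ⟨z, -, hz⟩ := Finset.exists_le_card_fiber_of_mul_le_card_of_maps_to
    (f := fun i : (𝓞 K)ˣ × ℕ =>
      red1 ι ((i.1 : 𝓞 K) * ((b : 𝓞 K) ^ i.2 * (a : 𝓞 K) ^ (J - i.2))))
    (fun _ _ => Finset.mem_univ _) Finset.univ_nonempty hc
  obtain ⟨A, hA, hAn⟩ := Finset.exists_subset_card_eq hz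
  have hm : ∀ i ∈ A, i.1 ∈ Y ∧ i.2 < J ∧
      red1 ι ((i.1 : 𝓞 K) * ((b : 𝓞 K) ^ i.2 * (a : 𝓞 K) ^ (J - i.2))) = z := fun i hi => by
    have := hA hi
    simp only [Finset.mem_filter, Finset.mem_product, Finset.mem_range] at this
    exact ⟨this.1.1, this.1.2, this.2⟩
  obtain ⟨e, he, hmin⟩ := Finset.exists_min_image A (fun i => i.2)
    (Finset.card_pos.1 (hAn ▸ hn))
  obtain ⟨v, hv, haf⟩ := h2 K (Y.image fun u => u * e.1⁻¹) (H + finrank ℚ K * C₁) (by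
    intro u hu σ
    obtain ⟨w, hw, rfl⟩ := Finset.mem_image.1 hu
    have k1 := range_Set ht1 ht2 hw σ
    have k2 := range_Set ht1 ht2 (hm e he).1 σ
    rw [log_div_Set, abs_le]
    push_cast
    constructor <;> linarith [k1.1, k1.2, k2.1, k2.2])
  have hmem : ∀ i ∈ A, i.1 * e.1⁻¹ ∈ Y.image fun u => u * e.1⁻¹ := fun i hi =>
    Finset.mem_image_of_mem _ (hm i hi).1
  have hJ : ∀ i ∈ A, i.2 - e.2 ≤ J := fun i hi => by have := (hm i hi).2.1; omega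
  refine ⟨(𝓞 K)ˣ × ℕ, fun i => v (i.1 * e.1⁻¹), A,
    fun i => ((i.1 * e.1⁻¹ : (𝓞 K)ˣ) : 𝓞 K) *
      ((b : 𝓞 K) ^ (i.2 - e.2) * (a : 𝓞 K) ^ (J - (i.2 - e.2))), hAn,
    ⟨ha, hab, hqa, ?_, ?_, ?_, ?_⟩, fun i hi l => hv _ (hmem i hi) l⟩
  · intro i hi i' hi' hii
    obtain ⟨k1, k2⟩ := inj_setr ha hab (hJ i hi) (hJ i' hi') hii
    have k3 := hmin i hi
    have k4 := hmin i' hi'
    exact Prod.ext (mul_right_cancel k1) (by omega)
  · intro i hi
    have k0 : (a : ZMod q) ≠ 0 := fun h => hqa ((ZMod.natCast_eq_zero_iff a q).1 h)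
    have k0' : (b : ZMod q) ≠ 0 := fun h => hqb ((ZMod.natCast_eq_zero_iff b q).1 h)
    have k1 : red1 ι ((e.1 : 𝓞 K) * ((b : 𝓞 K) ^ e.2 * (a : 𝓞 K) ^ (J - e.2))) ≠ 0 := by
      rw [map_mul, map_mul, map_pow, map_pow, map_natCast, map_natCast]
      exact mul_ne_zero (e.1.isUnit.map (red1 ι)).ne_zero
        (mul_ne_zero (pow_ne_zero _ k0') (pow_ne_zero _ k0))
    have k2 : ((i.1 * e.1⁻¹ : (𝓞 K)ˣ) : 𝓞 K) *
        ((b : 𝓞 K) ^ (i.2 - e.2) * (a : 𝓞 K) ^ (J - (i.2 - e.2))) *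
        ((e.1 : 𝓞 K) * ((b : 𝓞 K) ^ e.2 * (a : 𝓞 K) ^ (J - e.2))) =
        (a : 𝓞 K) ^ J * ((i.1 : 𝓞 K) * ((b : 𝓞 K) ^ i.2 * (a : 𝓞 K) ^ (J - i.2))) := by
      have m1 := hmin i hi
      have m2 := (hm i hi).2.1
      have m3 : J - (i.2 - e.2) + (J - e.2) = J + (J - i.2) := by omega
      rw [mul_mul_mul_comm, mul_mul_mul_comm ((b : 𝓞 K) ^ (i.2 - e.2)), ← pow_add, ← pow_add,
        Nat.sub_add_cancel m1, m3, ← Units.val_mul, inv_mul_cancel_right, pow_add]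
      ring
    have k3 : red1 ι (((i.1 * e.1⁻¹ : (𝓞 K)ˣ) : 𝓞 K) *
        ((b : 𝓞 K) ^ (i.2 - e.2) * (a : 𝓞 K) ^ (J - (i.2 - e.2))) - (a : 𝓞 K) ^ J) = 0 := by
      rw [map_sub, sub_eq_zero]
      refine mul_right_cancel₀ k1 ?_
      rw [← map_mul, k2, map_mul, (hm i hi).2.2, (hm e he).2.2]
    have k4 := (red1_eq_zero ι _).1 k3
    rwa [RingOfIntegers.coe_eq_algebraMap, map_sub, map_pow (algebraMap (𝓞 K) K), map_natCast,
      map_sub, map_pow, map_natCast] at k4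
  · refine ⟨fun σ => t σ - Real.log ‖σ ((e.1 : 𝓞 K) : K)‖ + J * W, ?_, fun σ i hi => ?_⟩
    · rw [Finset.sum_add_distrib, Finset.sum_sub_distrib, sum_log_unit, Finset.sum_const,
        Finset.card_univ, card_emb, nsmul_eq_mul]
      push_cast
      linarith
    · have k1 := (range_Set ht1 ht2 (hm i hi).1 σ).1
      have k2 : (b : ℝ) ^ (i.2 - e.2) * (a : ℝ) ^ (J - (i.2 - e.2)) ≤ Real.exp (J * W) := by
        have k4 : (1 : ℝ) ≤ a := by exact_mod_cast ha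
        have k5 : (a : ℝ) ≤ b := by exact_mod_cast hab.le
        have k3 : (b : ℝ) ≤ Real.exp W := (Real.log_le_iff_le_exp (by linarith)).1 hW
        calc (b : ℝ) ^ (i.2 - e.2) * (a : ℝ) ^ (J - (i.2 - e.2))
            ≤ b ^ (i.2 - e.2) * (b : ℝ) ^ (J - (i.2 - e.2)) := by gcongr
          _ = b ^ J := by rw [← pow_add, Nat.add_sub_cancel' (hJ i hi)]
          _ ≤ Real.exp W ^ J := pow_le_pow_left₀ (by linarith) k3 J
          _ = _ := by rw [← Real.exp_nat_mul]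
      rw [norm_form, Real.exp_add]
      refine mul_le_mul ?_ k2 (by positivity) (Real.exp_pos _).le
      rw [← Real.log_le_iff_le_exp (emb_unit_pos _ σ), log_div_Set]
      linarith
  · exact ⟨fun i => i.1 * e.1⁻¹, fun i => i.2 - e.2, fun i hi => ⟨hJ i hi, rfl⟩, fun φ b =>
      (haf φ b).imp fun _ hx i hi => hx _ (hmem i hi)⟩

theorem bakr (h1 : SETr) (h2 : SIE_st) (h3 : DESCr) (h4 : PARa) : BAKr := by
  classical
  intro C
  obtain ⟨C₁, hC, h1⟩ := h1 C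
  obtain ⟨A, d₀, hA, hd₀, h4⟩ := h4 C₁ hC
  refine ⟨A, d₀, hA, fun a b q _ K _ _ _ ⟨ι⟩ ha hab hqa hqb hr hd hD hq1 hW k hk => ?_⟩
  by_contra hlt
  rw [not_le] at hlt
  obtain ⟨H, J, S, M, R, T, n, h, V, eT, en, eh, eV, hS, p1, p2, p3, p4, p5⟩ :=
    h4 (finrank ℚ K) q hD hq1
  have hD1 : 1 ≤ finrank ℚ K := hd₀.trans hD
  have hq : q ≠ 2 := by
    have : A ^ 1 ≤ A ^ finrank ℚ K := Nat.pow_le_pow_right (by omega) hD1
    rw [pow_one] at this
    omega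
  have hn : 1 ≤ n := by
    rw [en]
    exact Nat.mul_pos (Nat.mul_pos (by omega) hS) (Nat.choose_pos (by omega))
  have hV : 1 ≤ V := by
    rw [eV]
    exact Nat.pow_pos (by omega)
  obtain ⟨I, v, X, y, hX, hc, hv⟩ := h1 a b q K ι ha hab hqa hqb hd H J n (2 ^ finrank ℚ K)
    (by exact_mod_cast hW) hn p1
  rw [← eh] at hc
  rw [← eV] at hv
  obtain ⟨c, ⟨i₀, hi₀, hc₀⟩, hcb, hvan⟩ := h2 K I _ v X y h V T S hc.ht (Nat.cast_nonneg _) hV hv
    (Finset.card_pos.1 (hX ▸ hn)) (by rw [hX, en])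
  have hk' : 2 ^ (finrank ℚ K + 1) * S * (M + 2 ^ R) ≤ k :=
    Nat.le_of_mul_le_mul_right (p5.trans hlt.le) (Nat.pow_pos two_pos)
  have hn' : (1 : ℝ) ≤ n := by exact_mod_cast hn
  have hV' : (1 : ℝ) ≤ V := by exact_mod_cast hV
  refine h3 a b J q K ι I _ c v (X.filter fun i => c i ≠ 0) y h
    (3 * n ^ 2 * V ^ (2 * T) * Real.exp (2 * S * h / finrank ℚ K)) _ S M R hq hr
    ⟨i₀, Finset.mem_filter.2 ⟨hi₀, hc₀⟩⟩ (fun i hi => (Finset.mem_filter.1 hi).2)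
    (hc.mono (Finset.filter_subset _ _) le_rfl) ?_ ?_ ?_ hS (Nat.cast_nonneg _)
    (by exact_mod_cast p2) p3 p4 le_rfl
    ((Nat.le_mul_of_pos_right _ (Nat.pow_pos two_pos)).trans p5)
    (hk.of_dvd (pow_dvd_pow _ hk'))
  · rw [← eT]
    refine Bd.mono (A := X) (T := T) (fun α hα => ?_) (Finset.filter_subset _ _) le_rfl
    refine (Finset.sum_le_card_nsmul _ _
      (3 * n * V ^ T * Real.exp (2 * S * h / finrank ℚ K) * V ^ T) fun i hi => ?_).trans_eq ?_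
    · rw [Int.cast_mul, abs_mul]
      refine mul_le_mul ?_ (mon_Set hV (hv i hi) hα) (abs_nonneg _) (by positivity)
      have := hcb i hi
      rwa [hX] at this
    · rw [hX, nsmul_eq_mul]
      ring
  · rw [← eT]
    intro α hα s hs
    rw [← hvan α hα s hs]
    refine Finset.sum_filter_of_ne fun i _ hi e => hi ?_
    rw [e, zero_mul, Int.cast_zero, zero_mul]
  · have k1 : (1 : ℝ) ≤ n ^ 2 := one_le_pow₀ hn'
    have k2 : (1 : ℝ) ≤ V ^ (2 * T) := one_le_pow₀ hV'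
    have k3 : (1 : ℝ) ≤ Real.exp (2 * S * h / finrank ℚ K) := Real.one_le_exp (by positivity)
    exact one_le_mul_of_one_le_of_one_le (one_le_mul_of_one_le_of_one_le (by linarith) k2) k3

end Pool.Agent.MP_3d0a02_nt.R
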