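import Pool.Agent.MP_3d0a02_nt.R.Defs
import Pool.Agent.MP_384f6f_nt.V.Val

/-!
The power saving for a rational base.
-/

open NumberField Module Finset
open Pool.Agent.MP_9b2bac_nt.B
open Pool.Agent.MP_384f6f_nt.V (NSq TOWa nsq_val)

namespace Pool.Agent.MP_3d0a02_nt.R

theorem fermat_one {q a : ℕ} (hq : q.Prime) (h : ¬ q ∣ a) : a ^ (q - 1) ≡ 1 [MOD q] := by
  have := Nat.ModEq.pow_totient ((Nat.Prime.coprime_iff_not_dvd hq).2 h).symm
  rwa [Nat.totient_prime hq] at this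

theorem base_valr {q a : ℕ} (hq : q.Prime) (q2 : q ≠ 2) (ha : 1 ≤ a) (hqa : ¬ q ∣ a) (k b : ℕ) :
    a < b → ¬ q ∣ b → a ^ (q - 1) ≡ b ^ (q - 1) [MOD q ^ k] →
    ∃ (t l : ℕ) (u : ℕ × ℕ), a < t ∧ t ≤ b ∧ ¬ q ∣ t ∧ l.Prime ∧
      a * t = u.1 ^ 2 * (l * u.2) ∧ ¬ l ∣ u.2 ∧ a ^ (q - 1) ≡ t ^ (q - 1) [MOD q ^ k] := by
  induction b using Nat.strong_induction_on with
  | _ b ih =>
    intro hab hqb hk
    obtain ⟨s, t, e, hs⟩ := Nat.sq_mul_squarefree (a * b)
    by_cases s1 : s = 1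
    · subst s1
      rw [mul_one] at e
      have t2 : a < t := by
        by_contra h
        rw [not_lt] at h
        nlinarith
      have t3 : t < b := by
        by_contra h
        rw [not_lt] at h
        nlinarith
      have n1 : ¬ q ∣ t := fun h => by
        have h1 : q ∣ a * b := e ▸ h.trans (dvd_pow_self t two_ne_zero)
        exact ((Nat.Prime.dvd_mul hq).1 h1).elim hqa hqb
      have k1 : a ^ (q - 1) ≡ t ^ (q - 1) [MOD q ^ k] := by
        have x1 : a ^ (q - 1) ≤ t ^ (q - 1) := Nat.pow_le_pow_left t2.le _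
        have e0 : (a ^ (q - 1)) ^ 2 ≡ (t ^ (q - 1)) ^ 2 [MOD q ^ k] := by
          rw [← pow_mul t, mul_comm _ 2, pow_mul, e, mul_pow, sq]
          exact hk.mul_left _
        have e1 := (Nat.modEq_iff_dvd' (Nat.pow_le_pow_left x1 2)).1 e0
        rw [Nat.sq_sub_sq] at e1
        have n3 : ¬ q ∣ t ^ (q - 1) + a ^ (q - 1) := by
          intro h
          have k2 : t ^ (q - 1) + a ^ (q - 1) ≡ 1 + 1 [MOD q] :=
            (fermat_one hq n1).add (fermat_one hq hqa)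
          have k3 : q ∣ 1 + 1 := (Nat.modEq_zero_iff_dvd).1
            (k2.symm.trans ((Nat.modEq_zero_iff_dvd).2 h))
          exact q2 ((Nat.prime_dvd_prime_iff_eq hq Nat.prime_two).1 k3)
        exact (Nat.modEq_iff_dvd' x1).2 ((Nat.Coprime.pow_left k
          ((Nat.Prime.coprime_iff_not_dvd hq).2 n3)).dvd_of_dvd_mul_left e1)
      obtain ⟨b', l, u, h1, h2, h3⟩ := ih t t3 t2 n1 k1
      exact ⟨b', l, u, h1, h2.trans t3.le, h3⟩
    · obtain ⟨l, hl, r, rfl⟩ := Nat.exists_prime_and_dvd s1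
      refine ⟨b, l, (t, r), hab, le_rfl, hqb, hl, e.symm, ?_, hk⟩
      rintro ⟨z, rfl⟩
      exact hl.not_isUnit (hs l ⟨z, by ring⟩)

theorem valr_of (h1 : BAKr) (h2 : TOWa) : VALr := by
  classical
  obtain ⟨C, q₀, h2⟩ := h2
  obtain ⟨A, d₀, hA, h1⟩ := h1 C
  have hA' : (1 : ℝ) < A := by exact_mod_cast (by omega : 1 < A)
  have hl := Real.log_pos hA'
  refine ⟨Real.log 2 / (2 * Real.log A), div_pos (Real.log_pos one_lt_two) (by positivity),
    max q₀ (A ^ 2 ^ (d₀ + 1)), fun q hq hq0 a b ha hab hqa hqb hW k hk => ?_⟩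
  have := Fact.mk hq
  have ex : ∃ N, q < A ^ 2 ^ N := ⟨q, Nat.lt_two_pow_self.trans_le
    ((Nat.lt_pow_self (by omega)).le)⟩
  have hN := Nat.find_spec ex
  have hN2 : d₀ + 1 < Nat.find ex := by
    by_contra hh
    have k1 : A ^ 2 ^ Nat.find ex ≤ A ^ 2 ^ (d₀ + 1) :=
      Nat.pow_le_pow_right (by omega) (Nat.pow_le_pow_right two_pos (not_lt.1 hh))
    have k2 := (le_max_right _ _).trans hq0
    omega
  obtain ⟨m, hm⟩ : ∃ m, Nat.find ex = m + 2 := ⟨Nat.find ex - 2, by omega⟩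
  have hN3 := Nat.find_min ex (m := m + 1) (by omega)
  rw [hm] at hN
  have q2 : q ≠ 2 := by
    have k1 : A ^ 1 ≤ A ^ 2 ^ (d₀ + 1) := Nat.pow_le_pow_right (by omega) Nat.one_le_two_pow
    have k2 := (le_max_right _ _).trans hq0
    rw [pow_one] at k1
    omega
  obtain ⟨t, l, u, hb, hba, hqt, hl1, hl2, hl3, hk⟩ := base_valr hq q2 ha hqa k b hab hqb hk
  obtain ⟨K, _, _, _, hD, hι, hr, hd⟩ := h2 l hl1 q ((le_max_left _ _).trans hq0) m
  have e2 : q ≤ A ^ (2 * finrank ℚ K) := by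
    rw [hD, ← pow_succ']
    exact hN.le
  have hq' : (0 : ℝ) < q := by exact_mod_cast hq.pos
  have k1 : (q : ℝ) ^ (Real.log 2 / (2 * Real.log A)) ≤ 2 ^ finrank ℚ K := by
    have k2 : Real.log q ≤ 2 * finrank ℚ K * Real.log A := by
      have k3 : (q : ℝ) ≤ (A : ℝ) ^ (2 * finrank ℚ K) := by exact_mod_cast e2
      have k4 := Real.log_le_log hq' k3
      rwa [Real.log_pow, Nat.cast_mul, Nat.cast_ofNat] at k4
    rw [← Real.log_le_log_iff (Real.rpow_pos_of_pos hq' _) (by positivity), Real.log_rpow hq',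
      Real.log_pow, div_mul_eq_mul_div, div_le_iff₀ (by positivity)]
    nlinarith [Real.log_pos one_lt_two]
  have t0 : 0 < t := by omega
  have hb := h1 a t q K hι ha hb hqa hqt (nsq_val hl1 hl2 hl3 (by positivity) hr) hd (by
    have : m + 1 < 2 ^ (m + 1) := Nat.lt_two_pow_self
    omega) (by
    rw [hD]
    exact not_lt.1 hN3) ((Real.log_le_log (by positivity) (by exact_mod_cast hba)).trans
      (hW.trans k1)) k hk
  rw [Real.rpow_sub hq', Real.rpow_one, le_div_iff₀ (Real.rpow_pos_of_pos hq' _)]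
  have k5 : (k : ℝ) * 2 ^ finrank ℚ K ≤ q := by exact_mod_cast hb
  exact (mul_le_mul_of_nonneg_left k1 (Nat.cast_nonneg _)).trans k5

end Pool.Agent.MP_3d0a02_nt.R
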