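import Pool.Agent.MP_3d0a02_nt.R.Defs
import Pool.Agent.MP_9b2bac_nt.B.Xtr

/-!
The extrapolation step.
-/

open NumberField Module Finset
open Pool.Agent.MP_9b2bac_nt.B

namespace Pool.Agent.MP_3d0a02_nt.R

theorem ht_xtr {a b J : ℕ} {K : Type} [Field K] {I : Type} {d : ℕ} {v : I → Fin d → ℤ}
    {A : Finset I} [NumberField K] {y : I → 𝓞 K} {h : ℝ} {q : ℕ} [Fact q.Prime]
    {ι : K →+* ℚ_[q]} (H : Cr a b J ι v A y h) (hA : A.Nonempty) (e : ℕ) :
    Ht A (fun i => y i * (a : 𝓞 K) ^ (e * J)) ((e + 1 : ℕ) * h) := by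
  obtain ⟨i₀, hi₀⟩ := hA
  have h1 := (H.low hi₀).trans (H.up hi₀)
  obtain ⟨t, h2, h3⟩ := H.ht
  have a0 : (0 : ℝ) < a := by exact_mod_cast H.pos
  refine ⟨fun σ => t σ + e * (J * Real.log a), ?_, fun σ i hi => ?_⟩
  · rw [sum_add_distrib, sum_const, card_univ, card_emb, nsmul_eq_mul]
    have h4 := mul_le_mul_of_nonneg_left h1 (Nat.cast_nonneg (α := ℝ) e)
    push_cast
    linarith
  · have e1 : ((y i * (a : 𝓞 K) ^ (e * J) : 𝓞 K) : K) = (y i : K) * (a : K) ^ (e * J) := by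
      simp only [RingOfIntegers.coe_eq_algebraMap, map_mul, map_pow, map_natCast]
    have e2 : Real.exp (e * (J * Real.log a)) = (a : ℝ) ^ (e * J) := by
      rw [← mul_assoc, ← Nat.cast_mul, Real.exp_nat_mul, Real.exp_log a0]
    rw [e1, map_mul, map_pow, map_natCast, norm_mul, norm_pow, Complex.norm_natCast, Real.exp_add,
      e2]
    exact mul_le_mul_of_nonneg_right (h3 σ i hi) (by positivity)

theorem red_near {q : ℕ} [Fact q.Prime] {F : Type} [Field F] (ι : F →+* ℚ_[q]) (N : ℕ) {x : 𝓞 F}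
    {m : ℕ} (h : ‖ι (x : F) - (m : ℚ_[q])‖ < 1) : (q : ZMod (q ^ N)) ∣ red ι N x - m := by
  have h1 : (q : ℤ_[q]) ∣ toZ ι x - m := (PadicInt.norm_lt_one_iff_dvd _).1 h
  simpa [red] using map_dvd (PadicInt.toZModPow (p := q) N) h1

theorem xtrr (h1 : SCH_st) (h2 : DER_st) : XTRr := by
  intro a b J q hq K F _ _ _ _ _ _ ι I d c v A y r h Q T S M e z α q2 he hc hr hb hv hM hS hd hα hlt
  rcases A.eq_empty_or_nonempty with rfl | hne
  · simp
  obtain ⟨L, l1, l2, l3⟩ := h1 q (S * M) hq.out hS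
  obtain ⟨η, j, hy, ha⟩ := hc.dec
  have q3 : 1 ≤ q - 1 := by have := hq.out.two_le; omega
  have qe : Even (q - 1) := (hq.out.even_sub_one q2)
  set f := red ι (S * M) with hf
  set g := f.comp (algebraMap (𝓞 K) (𝓞 F)) with hg
  obtain ⟨ua, hua⟩ : IsUnit (a : ZMod (q ^ (S * M))) := (ZMod.isUnit_iff_coprime _ _).2
    (Nat.Coprime.pow_right _ ((Nat.Prime.coprime_iff_not_dvd hq.out).2 hc.nd).symm)
  have t1 : (a : ZMod (q ^ (S * M))) ^ (q - 1) = (b : ZMod (q ^ (S * M))) ^ (q - 1) := by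
    exact_mod_cast (ZMod.natCast_eq_natCast_iff _ _ _).2 hd
  obtain ⟨ub, hub⟩ : IsUnit (b : ZMod (q ^ (S * M))) := by
    refine (isUnit_pow_iff (n := q - 1) (by omega)).1 ?_
    rw [← t1, ← hua]
    exact ua.isUnit.pow _
  have t2 : L (ub * ua⁻¹) = 0 := l2 _ (by
    rw [mul_pow, inv_pow, mul_inv_eq_one]
    exact Units.ext (by rw [Units.val_pow_eq_pow_val, Units.val_pow_eq_pow_val, hua, hub, t1]))
  have n0 : IsNilpotent (q : ZMod (q ^ (S * M))) :=
    ⟨S * M, by rw [← Nat.cast_pow, ZMod.natCast_self]⟩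
  have d1 : ∀ i ∈ A, (q : ZMod (q ^ (S * M))) ∣
      f (r i) * ((ua⁻¹ ^ J : (ZMod (q ^ (S * M)))ˣ) : ZMod (q ^ (S * M))) - 1 := fun i hi => by
    have h3 := red_near ι (S * M) (x := r i) (m := a ^ J) (by
      rw [Nat.cast_pow]
      exact (hr i hi).2)
    have h4 : ((a ^ J : ℕ) : ZMod (q ^ (S * M))) *
        ((ua⁻¹ ^ J : (ZMod (q ^ (S * M)))ˣ) : ZMod (q ^ (S * M))) = 1 := by
      rw [Nat.cast_pow, ← hua, ← Units.val_pow_eq_pow_val, ← Units.val_mul, ← mul_pow,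
        mul_inv_cancel, one_pow, Units.val_one]
    rw [← h4, ← sub_mul]
    exact h3.mul_right _
  have u1 : ∀ i ∈ A, IsUnit (f (r i) *
      ((ua⁻¹ ^ J : (ZMod (q ^ (S * M)))ˣ) : ZMod (q ^ (S * M)))) := fun i hi => by
    obtain ⟨w, hw⟩ := d1 i hi
    rw [sub_eq_iff_eq_add'.1 hw]
    exact ((Commute.all _ _).isNilpotent_mul_right n0).isUnit_one_add
  obtain ⟨e', he'⟩ : ∃ e' : ZMod (q ^ (S * M)), e' * (e + 1 : ℕ) = 1 := by
    rcases he with rfl | rfl
    · exact ⟨1, by simp⟩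
    · obtain ⟨u, hu⟩ := (ZMod.isUnit_iff_coprime 2 (q ^ (S * M))).2
        (Nat.Coprime.pow_right _ ((Nat.coprime_primes Nat.prime_two hq.out).2 q2.symm))
      exact ⟨(u⁻¹ : (ZMod (q ^ (S * M)))ˣ), by rw [← hu, Units.inv_mul]⟩
  classical
  let ρ : I → (ZMod (q ^ (S * M)))ˣ := fun i => if hi : IsUnit (f (r i) *
    ((ua⁻¹ ^ J : (ZMod (q ^ (S * M)))ˣ) : ZMod (q ^ (S * M)))) then hi.unit else 1
  have r1 : ∀ i ∈ A, (ρ i : ZMod (q ^ (S * M))) =
      f (r i) * ((ua⁻¹ ^ J : (ZMod (q ^ (S * M)))ˣ) : ZMod (q ^ (S * M))) := fun i hi => by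
    simp only [ρ, dif_pos (u1 i hi), IsUnit.unit_spec]
  have r2 : ∀ i ∈ A, (ρ i : ZMod (q ^ (S * M))) ^ (e + 1) =
      g (y i) * ((ua⁻¹ ^ J : (ZMod (q ^ (S * M)))ˣ) : ZMod (q ^ (S * M))) := fun i hi => by
    have h3 : f (r i) ^ (e + 1) = g (y i) * ((ua ^ (e * J) : (ZMod (q ^ (S * M)))ˣ) :
        ZMod (q ^ (S * M))) := by
      rw [← map_pow, (hr i hi).1, Units.val_pow_eq_pow_val, hua, ← map_natCast g, ← map_pow,
        ← map_mul]
      rfl
    rw [r1 i hi, mul_pow, h3, mul_assoc, ← Units.val_pow_eq_pow_val, ← Units.val_mul]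
    congr 2
    group
  have r3 : ∀ i ∈ A, L (ρ i) = e' * L (Units.map g.toMonoidHom (η i)) := fun i hi => by
    obtain ⟨m, hm⟩ := Nat.exists_eq_add_of_le (hy i hi).1
    have h3 : ρ i ^ (e + 1) = Units.map g.toMonoidHom (η i) * (ub * ua⁻¹) ^ j i := by
      have h5 : g (y i) = ((Units.map g.toMonoidHom (η i) * (ub ^ j i * ua ^ (J - j i)) :
          (ZMod (q ^ (S * M)))ˣ) : ZMod (q ^ (S * M))) := by
        rw [(hy i hi).2, map_mul, map_mul, map_pow, map_pow, map_natCast, map_natCast,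
          Units.val_mul, Units.val_mul, Units.val_pow_eq_pow_val, Units.val_pow_eq_pow_val, hua,
          hub]
        rfl
      refine Units.ext ?_
      rw [Units.val_pow_eq_pow_val, r2 i hi, h5, ← Units.val_mul]
      congr 1
      rw [show J - j i = m by omega, hm, mul_pow, pow_add, mul_assoc, mul_assoc,
        mul_left_comm (ua ^ m), ← mul_pow ua, mul_inv_cancel, one_pow, mul_one]
    have h4 := congrArg L h3
    rw [l1, pow_Xtr l1, pow_Xtr l1, t2, mul_zero, add_zero] at h4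
    rw [← h4, ← mul_assoc, he', one_mul]
  have key := l3 I A (fun i => ((c i * mon v α i : ℤ) : ZMod (q ^ (S * M)))) ρ S M
    (fun s => (e + 1) * (2 * s + 1))
    (fun i hi => by rw [r1 i hi]; exact d1 i hi) rfl
    (fun s hs s' hs' => node_Xtr hq.out q2 (by omega) ((Nat.le_mul_of_pos_right S hM).trans hS)
      hs hs')
    (fun s hs m hm => by
      have h3 := h2 K I d c v A y η T S _ g (fun u => e' * L (Units.map g.toMonoidHom u))
        (fun u w => by rw [map_mul, l1, mul_add]) (fun u hu => by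
          rw [l2, mul_zero]
          rw [← map_pow]
          rcases tors hu with rfl | rfl
          · rw [one_pow, map_one]
          · rw [qe.neg_one_pow, map_one]) ha hv α m (by omega) s hs
      rw [← zero_mul (((ua⁻¹ ^ J : (ZMod (q ^ (S * M)))ˣ) : ZMod (q ^ (S * M))) ^ (2 * s + 1)),
        ← h3, sum_mul]
      refine Finset.sum_congr rfl fun i hi => ?_
      rw [r3 i hi, pow_mul (ρ i : ZMod (q ^ (S * M))) (e + 1), r2 i hi,
        mul_pow (g (y i)), ← mul_assoc]) z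
  by_contra h0
  have hsz := size_Xtr (y := fun i => y i * (a : 𝓞 K) ^ (e * J)) z (Nat.succ_pos e)
    (ht_xtr hc hne e) (fun i hi => (hr i hi).1) (hb α (by omega))
  have e5 : (z : ℝ) * (((e + 1 : ℕ) : ℝ) * h) / (e.succ : ℕ) = z * h := by
    have : ((e + 1 : ℕ) : ℝ) ≠ 0 := by positivity
    rw [Nat.succ_eq_add_one]
    field_simp
  rw [e5] at hsz
  refine ((lio ι (S * M) h0 ?_).trans hsz).not_gt hlt
  refine ((ua⁻¹ ^ J).isUnit.pow z).mul_left_eq_zero.1 ?_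
  rw [← hf, ← key, map_sum, sum_mul]
  refine Finset.sum_congr rfl fun i hi => ?_
  rw [map_mul, map_pow, map_intCast, r1 i hi, mul_pow, mul_assoc]

end Pool.Agent.MP_3d0a02_nt.R
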