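import Pool.Agent.MP_3d0a02_nt.R.Desc
import Pool.Agent.MP_3d0a02_nt.R.Hlf
import Pool.Agent.MP_3d0a02_nt.R.Kum
import Pool.Agent.MP_3d0a02_nt.R.Set
import Pool.Agent.MP_3d0a02_nt.R.Val
import Pool.Agent.MP_3d0a02_nt.R.Xtr
import Pool.Agent.MP_384f6f_nt.V.Par
import Pool.Agent.MP_9b2bac_nt.B.Coo
import Pool.Agent.MP_9b2bac_nt.B.Der
import Pool.Agent.MP_9b2bac_nt.B.Sch
import Pool.Agent.MP_9b2bac_nt.B.Sie
import Pool.Agent.MP_9b2bac_nt.B.TowL
import Pool.Agent.MP_9b2bac_nt.B.Uni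

/-! The power saving bound for the valuation of `b ^ (q - 1) - a ^ (q - 1)`. -/

open Pool.Agent.MP_9b2bac_nt.B
open Pool.Agent.MP_384f6f_nt.V (para)

namespace Pool.Agent.MP_3d0a02_nt.R

theorem valr : VALr :=
  valr_of (bakr (setr uni_st coo_st) sie_st (descr der_st (xtrr sch_st der_st) kumr hlfr) para)
    towl

end Pool.Agent.MP_3d0a02_nt.R
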