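import Pool.Agent.MP_384f6f_nt.V.Defs

/-!
Statements of the steps of the power saving bound for the valuation of
`b ^ (q - 1) - a ^ (q - 1)`, for a rational base `b / a`.
-/

open NumberField Module Finset
open Pool.Agent.MP_9b2bac_nt.B
open Pool.Agent.MP_384f6f_nt.V (NSq)

namespace Pool.Agent.MP_3d0a02_nt.R

/-- a configuration of distinct units times forms of degree `J` in `a`, `b`, close to `a ^ J` -/
structure Cr (a b J : ℕ) {K : Type} [Field K] {I : Type} {d : ℕ} {q : ℕ} [Fact q.Prime]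
    [NumberField K] (ι : K →+* ℚ_[q]) (v : I → Fin d → ℤ) (A : Finset I) (y : I → 𝓞 K) (h : ℝ) :
    Prop where
  pos : 1 ≤ a
  lt : a < b
  nd : ¬ q ∣ a
  inj : Set.InjOn y A
  one : ∀ i ∈ A, ‖ι (y i : K) - (a : ℚ_[q]) ^ J‖ < 1
  ht : Ht A y h
  dec : ∃ (η : I → (𝓞 K)ˣ) (j : I → ℕ),
    (∀ i ∈ A, j i ≤ J ∧ y i = η i * ((b : 𝓞 K) ^ j i * (a : 𝓞 K) ^ (J - j i))) ∧ Aff v A η

/-- extrapolation -/
def XTRr : Prop :=
  ∀ (a b J q : ℕ) [Fact q.Prime] (K F : Type) [Field K] [NumberField K] [IsTotallyReal K] [Field F]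
    [NumberField F] [Algebra K F] (ι : F →+* ℚ_[q]) (I : Type) (d : ℕ) (c : I → ℤ)
    (v : I → Fin d → ℤ) (A : Finset I) (y : I → 𝓞 K) (r : I → 𝓞 F) (h Q : ℝ) (T S M e z : ℕ)
    (α : Fin d → ℕ), q ≠ 2 → (e = 0 ∨ e = 1) → Cr a b J (ι.comp (algebraMap K F)) v A y h →
    (∀ i ∈ A, r i ^ (e + 1) = algebraMap (𝓞 K) (𝓞 F) (y i * (a : 𝓞 K) ^ (e * J)) ∧
      ‖ι (r i : F) - (a : ℚ_[q]) ^ J‖ < 1) → Bd c v A T Q →
    Van c v A y T S → 1 ≤ M → S * M ≤ q → a ^ (q - 1) ≡ b ^ (q - 1) [MOD q ^ (S * M)] →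
    ∑ l, α l + M ≤ T + 1 →
    (Q ^ finrank ℚ K * Real.exp (z * h)) ^ finrank K F < (q : ℝ) ^ (S * M) →
    ∑ i ∈ A, ((c i * mon v α i : ℤ) : 𝓞 F) * r i ^ z = 0

/-- the field of the square roots -/
def KUMr : Prop :=
  ∀ (a b J q : ℕ) [Fact q.Prime] (K : Type) [Field K] [NumberField K] [IsTotallyReal K]
    (ι : K →+* ℚ_[q]) (I : Type) (d : ℕ) (v : I → Fin d → ℤ) (A : Finset I) (y : I → 𝓞 K) (h : ℝ),
    q ≠ 2 → Cr a b J ι v A y h →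
    ∃ (F : Type) (_ : Field F) (_ : NumberField F) (_ : Algebra K F) (ι' : F →+* ℚ_[q])
      (r : I → 𝓞 F), ι'.comp (algebraMap K F) = ι ∧ finrank K F ≤ 2 ^ (finrank ℚ K + 1) ∧
      ∀ i ∈ A, r i ^ 2 = algebraMap (𝓞 K) (𝓞 F) (y i * (a : 𝓞 K) ^ J) ∧
        ‖ι' (r i : F) - (a : ℚ_[q]) ^ J‖ < 1

/-- the descent to square roots -/
def HLFr : Prop :=
  ∀ (a b J q : ℕ) [Fact q.Prime] (K F : Type) [Field K] [NumberField K] [Field F] [NumberField F]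
    [Algebra K F] (ι : F →+* ℚ_[q]) (I : Type) (d : ℕ) (v : I → Fin d → ℤ) (A : Finset I)
    (y : I → 𝓞 K) (r : I → 𝓞 F) (h : ℝ), NSq (a * b) K → A.Nonempty →
    Cr a b J (ι.comp (algebraMap K F)) v A y h →
    (∀ i ∈ A, r i ^ 2 = algebraMap (𝓞 K) (𝓞 F) (y i * (a : 𝓞 K) ^ J) ∧
      ‖ι (r i : F) - (a : ℚ_[q]) ^ J‖ < 1) →
    ∃ (A' : Finset I) (y' : I → 𝓞 K), A' ⊆ A ∧ A'.Nonempty ∧
      Cr a b (J / 2) (ι.comp (algebraMap K F)) v A' y' (h / 2) ∧ ∀ (w : I → ℤ) (s : ℕ),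
        ∑ i ∈ A, (w i : 𝓞 F) * r i ^ (2 * s + 1) = 0 →
        ∑ i ∈ A', (w i : 𝓞 K) * y' i ^ (2 * s + 1) = 0

/-- the whole descent -/
def DESCr : Prop :=
  ∀ (a b J q : ℕ) [Fact q.Prime] (K : Type) [Field K] [NumberField K] [IsTotallyReal K]
    (ι : K →+* ℚ_[q]) (I : Type) (d : ℕ) (c : I → ℤ) (v : I → Fin d → ℤ) (A : Finset I)
    (y : I → 𝓞 K) (h Q : ℝ) (k S M R : ℕ), q ≠ 2 → NSq (a * b) K → A.Nonempty →
    (∀ i ∈ A, c i ≠ 0) → Cr a b J ι v A y h → Bd c v A (2 * (finrank ℚ K + 2) * M) Q →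
    Van c v A y (2 * (finrank ℚ K + 2) * M) S → 1 ≤ Q → 1 ≤ S → 0 ≤ h → 3 * h < 2 ^ R →
    8 * h ≤ M * Real.log q → 2 * finrank ℚ K * Real.log Q < S * M * Real.log q →
    2 ^ (finrank ℚ K + 1) * S * (M + 2 ^ R) ≤ k → k ≤ q →
    a ^ (q - 1) ≡ b ^ (q - 1) [MOD q ^ k] → False

/-- the first configuration -/
def SETr : Prop :=
  ∀ C : ℕ, ∃ C₁ : ℕ, 1 ≤ C₁ ∧ ∀ (a b q : ℕ) [Fact q.Prime] (K : Type) [Field K] [NumberField K]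
    [IsTotallyReal K] (ι : K →+* ℚ_[q]), 1 ≤ a → a < b → ¬ q ∣ a → ¬ q ∣ b →
    (discr K).natAbs ≤ C ^ finrank ℚ K → ∀ H J n W : ℕ, Real.log b ≤ W → 1 ≤ n →
    n * q * C₁ ^ finrank ℚ K ≤ J * (H + finrank ℚ K - 1).choose H →
    ∃ (I : Type) (v : I → Fin (finrank ℚ K) → ℤ) (A : Finset I) (y : I → 𝓞 K), A.card = n ∧
      Cr a b J ι v A y (H + finrank ℚ K * C₁ + finrank ℚ K * (J * W) : ℕ) ∧ ∀ i ∈ A, ∀ l,
        |v i l| ≤ ((6 * finrank ℚ K * (H + finrank ℚ K * C₁) + 2) ^ finrank ℚ K : ℕ)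

/-- the bound for the valuation given a field -/
def BAKr : Prop :=
  ∀ C : ℕ, ∃ A d₀ : ℕ, 3 ≤ A ∧ ∀ (a b q : ℕ) [Fact q.Prime] (K : Type) [Field K] [NumberField K]
    [IsTotallyReal K], Nonempty (K →+* ℚ_[q]) → 1 ≤ a → a < b → ¬ q ∣ a → ¬ q ∣ b →
    NSq (a * b) K → (discr K).natAbs ≤ C ^ finrank ℚ K → d₀ ≤ finrank ℚ K →
    A ^ finrank ℚ K ≤ q → Real.log b ≤ 2 ^ finrank ℚ K →
    ∀ k : ℕ, a ^ (q - 1) ≡ b ^ (q - 1) [MOD q ^ k] → k * 2 ^ finrank ℚ K ≤ q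

/-- the power saving bound for the valuation, for a rational base -/
def VALr : Prop :=
  ∃ c : ℝ, 0 < c ∧ ∃ q₀ : ℕ, ∀ q : ℕ, q.Prime → q₀ ≤ q → ∀ a b : ℕ, 1 ≤ a → a < b →
    ¬ q ∣ a → ¬ q ∣ b → Real.log b ≤ (q : ℝ) ^ c →
    ∀ k : ℕ, a ^ (q - 1) ≡ b ^ (q - 1) [MOD q ^ k] → (k : ℝ) ≤ (q : ℝ) ^ (1 - c)

section
variable {a b J : ℕ} {K : Type} [Field K] {I : Type} {d : ℕ} {v : I → Fin d → ℤ}
  {A A' : Finset I} [NumberField K] {y : I → 𝓞 K} {h h' : ℝ} {q : ℕ} [Fact q.Prime]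
  {ι : K →+* ℚ_[q]}

theorem Cr.mono (H : Cr a b J ι v A y h) (hA : A' ⊆ A) (hh : h ≤ h') : Cr a b J ι v A' y h' :=
  ⟨H.pos, H.lt, H.nd, H.inj.mono hA, fun i hi => H.one i (hA hi), H.ht.mono hA hh,
    H.dec.imp fun _ => Exists.imp fun _ e => ⟨fun i hi => e.1 i (hA hi), e.2.mono hA⟩⟩

omit [NumberField K] in
theorem norm_form (σ : K →+* ℂ) (u : (𝓞 K)ˣ) (a b i j : ℕ) :
    ‖σ (((u : 𝓞 K) * ((b : 𝓞 K) ^ i * (a : 𝓞 K) ^ j) : 𝓞 K) : K)‖ =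
      ‖σ ((u : 𝓞 K) : K)‖ * ((b : ℝ) ^ i * (a : ℝ) ^ j) := by
  have h : (((u : 𝓞 K) * ((b : 𝓞 K) ^ i * (a : 𝓞 K) ^ j) : 𝓞 K) : K) =
      ((u : 𝓞 K) : K) * ((b : K) ^ i * (a : K) ^ j) := by
    simp only [RingOfIntegers.coe_eq_algebraMap, map_mul, map_pow, map_natCast]
  rw [h, map_mul, map_mul, map_pow, map_pow, map_natCast, map_natCast, norm_mul, norm_mul,
    norm_pow, norm_pow, Complex.norm_natCast, Complex.norm_natCast]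

theorem sum_log_form (ha : 1 ≤ a) (hb : 1 ≤ b) (u : (𝓞 K)ˣ) (i j : ℕ) :
    ∑ σ : K →+* ℂ, Real.log ‖σ (((u : 𝓞 K) * ((b : 𝓞 K) ^ i * (a : 𝓞 K) ^ j) : 𝓞 K) : K)‖ =
      finrank ℚ K * (i * Real.log b + j * Real.log a) := by
  have a0 : (0 : ℝ) < a := by exact_mod_cast ha
  have b0 : (0 : ℝ) < b := by exact_mod_cast hb
  have e : ∀ σ : K →+* ℂ,
      Real.log ‖σ (((u : 𝓞 K) * ((b : 𝓞 K) ^ i * (a : 𝓞 K) ^ j) : 𝓞 K) : K)‖ =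
        Real.log ‖σ ((u : 𝓞 K) : K)‖ + (i * Real.log b + j * Real.log a) := fun σ => by
    rw [norm_form, Real.log_mul (emb_unit_pos u σ).ne' (by positivity),
      Real.log_mul (by positivity) (by positivity), Real.log_pow, Real.log_pow]
  simp only [e]
  rw [sum_add_distrib, sum_log_unit, zero_add, sum_const, card_univ, card_emb, nsmul_eq_mul]

theorem Cr.low (H : Cr a b J ι v A y h) {i : I} (hi : i ∈ A) :
    finrank ℚ K * (J * Real.log a) ≤ ∑ σ : K →+* ℂ, Real.log ‖σ (y i : K)‖ := by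
  obtain ⟨η, j, hy, -⟩ := H.dec
  have h1 := H.pos
  have h2 := H.lt
  have a0 : (0 : ℝ) < a := by exact_mod_cast h1
  have h3 : Real.log a ≤ Real.log b := Real.log_le_log a0 (by exact_mod_cast h2.le)
  rw [(hy i hi).2, sum_log_form h1 (by omega), Nat.cast_sub (hy i hi).1]
  refine mul_le_mul_of_nonneg_left ?_ (Nat.cast_nonneg _)
  have h4 : (j i : ℝ) * Real.log a ≤ j i * Real.log b :=
    mul_le_mul_of_nonneg_left h3 (Nat.cast_nonneg _)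
  linarith

theorem Cr.ne (H : Cr a b J ι v A y h) {i : I} (hi : i ∈ A) : y i ≠ 0 := by
  obtain ⟨η, j, hy, -⟩ := H.dec
  have h1 := H.pos
  have h2 := H.lt
  rw [(hy i hi).2]
  exact mul_ne_zero (η i).ne_zero (mul_ne_zero (pow_ne_zero _ (Nat.cast_ne_zero.2 (by omega)))
    (pow_ne_zero _ (Nat.cast_ne_zero.2 (by omega))))

theorem Cr.up (H : Cr a b J ι v A y h) {i : I} (hi : i ∈ A) :
    ∑ σ : K →+* ℂ, Real.log ‖σ (y i : K)‖ ≤ h := by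
  obtain ⟨t, h1, h2⟩ := H.ht
  have h0 : (y i : K) ≠ 0 := by simpa using H.ne hi
  refine (sum_le_sum fun σ _ => ?_).trans h1
  exact (Real.log_le_iff_le_exp (norm_pos_iff.2 ((map_ne_zero σ).2 h0))).2 (h2 σ i hi)

omit [NumberField K] in
theorem norm_pow_one (hn : ¬ q ∣ a) (n : ℕ) : ‖(a : ℚ_[q]) ^ n‖ = 1 := by
  rw [norm_pow, (Padic.norm_natCast_eq_one_iff (p := q) (n := a)).2
    ((Nat.Prime.coprime_iff_not_dvd Fact.out).2 hn), one_pow]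

end

end Pool.Agent.MP_3d0a02_nt.R
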