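import Pool.Agent.MP_3d0a02_nt.R.Defs
import Pool.Agent.MP_384f6f_nt.V.Desc

/-!
The end of the descent and the whole descent.
-/

open NumberField Module Finset
open Pool.Agent.MP_9b2bac_nt.B
open Pool.Agent.MP_384f6f_nt.V (enda)

namespace Pool.Agent.MP_3d0a02_nt.R

theorem endr {a b J q : ℕ} [Fact q.Prime] {K : Type} [Field K] [NumberField K] [IsTotallyReal K]
    {ι : K →+* ℚ_[q]} {I : Type} {d : ℕ} {v : I → Fin d → ℤ} {A : Finset I} {y : I → 𝓞 K}
    {h : ℝ} (hq : q ≠ 2) (hC : Cr a b J ι v A y h) (h3 : 3 * h < 1) : A.card ≤ 1 := by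
  rcases A.eq_empty_or_nonempty with rfl | ⟨i₀, hi₀⟩
  · simp
  obtain ⟨η, j, hη, hf⟩ := hC.dec
  have p1 := hC.pos
  have p2 := hC.lt
  have hD : (1 : ℝ) ≤ finrank ℚ K := by exact_mod_cast (finrank_pos : 0 < finrank ℚ K)
  have l2 : ∀ m : ℕ, 2 ≤ m → 1 / 3 < Real.log m := fun m hm =>
    lt_trans (by norm_num) (Real.log_two_gt_d9.trans_le
      (Real.log_le_log two_pos (by exact_mod_cast hm)))
  have la : 0 ≤ Real.log a := Real.log_nonneg (by exact_mod_cast p1)
  have k1 : a ^ J = 1 := by
    by_contra e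
    have e1 : 2 ≤ a := by
      by_contra e2
      exact e (by rw [show a = 1 by omega, one_pow])
    have e2 : (1 : ℝ) ≤ J := by
      have : J ≠ 0 := fun e3 => e (by rw [e3, pow_zero])
      exact_mod_cast Nat.one_le_iff_ne_zero.2 this
    have e3 := (hC.low hi₀).trans (hC.up hi₀)
    have e4 : (1 : ℝ) * (1 * Real.log a) ≤ finrank ℚ K * (J * Real.log a) := by gcongr
    linarith [l2 a e1]
  have k2 : ∀ i ∈ A, y i = η i * (b : 𝓞 K) ^ 0 := by
    intro i hi
    have e1 := hC.up hi
    rw [(hη i hi).2, sum_log_form p1 (by omega)] at e1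
    have e2 : j i = 0 := by
      by_contra e
      have e3 : (1 : ℝ) ≤ j i := by exact_mod_cast Nat.one_le_iff_ne_zero.2 e
      have e4 := l2 b (by omega)
      have e5 : 1 * Real.log b ≤ j i * Real.log b := by gcongr
      have e6 : 0 ≤ ((J - j i : ℕ) : ℝ) * Real.log a := by positivity
      have e7 : 1 * ((j i : ℝ) * Real.log b + (J - j i : ℕ) * Real.log a) ≤
          finrank ℚ K * (j i * Real.log b + (J - j i : ℕ) * Real.log a) := by
        gcongr
      linarith
    rw [(hη i hi).2, e2, Nat.sub_zero, ← Nat.cast_pow a, k1, Nat.cast_one, mul_one]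
  refine enda b q K ι I d v A y h hq ⟨by omega, hC.inj, fun i hi => ?_, hC.ht, η, fun _ => 0, k2,
    hf⟩ h3
  have := hC.one i hi
  rwa [← Nat.cast_pow, k1, Nat.cast_one] at this

theorem descr (h1 : DER_st) (h2 : XTRr) (h3 : KUMr) (h4 : HLFr) : DESCr := by
  intro a b J q _ K _ _ _ ι I d c v A y h Q k S M R hq hR hA hc hC hB hV hQ hS h0 h3h h8 h9 hk hkq
    hdv
  have hq1 : (1 : ℝ) < q := by exact_mod_cast (Fact.out : q.Prime).one_lt
  have hL : 0 < Real.log q := Real.log_pos hq1
  replace h8 : 8 * h ≤ (M + 1 : ℕ) * Real.log q := by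
    push_cast
    linarith
  replace h9 : 2 * finrank ℚ K * Real.log Q < S * (M + 1 : ℕ) * Real.log q := by
    refine h9.trans_le ?_
    gcongr
    omega
  induction R generalizing A y h S M J with
  | zero =>
    obtain ⟨η, j, hη, hf⟩ := hC.dec
    have h6 := endr hq hC (by simpa using h3h)
    obtain ⟨i, rfl⟩ := Finset.card_eq_one.1 (le_antisymm h6 hA.card_pos)
    have h7 := low_Desc h1 hf hV (Nat.zero_le _) 0 (by simp) 0 hS
    simp only [Finset.sum_singleton, mon, Pi.zero_apply, pow_zero, Finset.prod_const_one, mul_one,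
      mul_zero, zero_add, pow_one, mul_eq_zero, Int.cast_eq_zero] at h7
    rcases h7 with h7 | h7
    · exact hc i (Finset.mem_singleton_self i) h7
    · exact hC.ne (Finset.mem_singleton_self i) h7
  | succ R ih =>
    obtain ⟨η, j, hη, hf⟩ := hC.dec
    set D := finrank ℚ K with hD
    have hN : ∀ i ≤ D + 1, 2 ^ i * S * (M + 1) ≤ k := by
      intro i hi
      refine le_trans ?_ hk
      have : 1 ≤ 2 ^ (R + 1) := Nat.one_le_two_pow
      gcongr
      norm_num
    have hdb : ∀ i n, i + n = D + 1 → Van c v A y ((D + 3) * M + n * M) (2 ^ i * S) := by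
      intro i
      induction i with
      | zero =>
        intro n hn
        rw [pow_zero, one_mul]
        refine low_Desc h1 hf hV (le_of_eq ?_)
        rw [zero_add] at hn
        rw [hn]
        ring
      | succ i ih2 =>
        intro n hn α hα s hs
        have h6 := ih2 (n + 1) (by omega)
        have h7 : ι.comp (algebraMap K K) = ι := RingHom.ext fun _ => rfl
        refine h2 a b J q K K ι I d c v A y y h Q ((D + 3) * M + (n + 1) * M) (2 ^ i * S) (M + 1) 0
          (2 * s + 1) α hq (Or.inl rfl) (by rw [h7]; exact hC)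
          (fun i hi => ⟨by rw [zero_add, pow_one, zero_mul, pow_zero, mul_one]; rfl, hC.one i hi⟩)
          (hB.mono subset_rfl ?_) h6 (by omega) ((hN i (by omega)).trans hkq)
          (hdv.of_dvd (pow_dvd_pow _ (hN i (by omega)))) ?_ ?_
        · have : n + 1 ≤ D + 1 := by omega
          calc (D + 3) * M + (n + 1) * M ≤ (D + 3) * M + (D + 1) * M := by gcongr
            _ = 2 * (D + 2) * M := by ring
        · rw [hα]
          exact le_of_eq (by ring)
        · rw [finrank_self, pow_one]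
          have h10 := ineq_Desc (z := 2 * s + 1) (S' := 2 ^ i * S) 1 le_rfl hQ h0 (by linarith) h8 h9
            (Nat.le_mul_of_pos_left _ (by positivity)) (by
              rw [pow_succ, mul_right_comm] at hs
              omega)
          rwa [Nat.cast_one, div_one] at h10
    have h6 := hdb (D + 1) 0 rfl
    rw [zero_mul, add_zero] at h6
    obtain ⟨F, _, _, _, ι', r, hι, hF, hr⟩ := h3 a b J q K ι I d v A y h hq hC
    have hC' : Cr a b J (ι'.comp (algebraMap K F)) v A y h := by rw [hι]; exact hC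
    obtain ⟨A', y', hA', hne, hC2, hred⟩ := h4 a b J q K F ι' I d v A y r h hR hA hC' hr
    rw [hι] at hC2
    have h7 : Van c v A' y' ((D + 2) * M) (2 * S) := by
      intro α hα s hs
      refine hred (fun i => c i * mon v α i) s ?_
      refine h2 a b J q K F ι' I d c v A y r h Q ((D + 3) * M) (2 ^ (D + 1) * S) (M + 1) 1
        (2 * s + 1) α hq (Or.inr rfl) hC' (fun i hi => by rw [one_mul]; exact hr i hi)
        (hB.mono subset_rfl ?_) h6 (by omega)
        ((hN _ le_rfl).trans hkq) (hdv.of_dvd (pow_dvd_pow _ (hN _ le_rfl))) ?_ ?_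
      · exact Nat.mul_le_mul_right _ (by omega)
      · rw [hα]
        exact le_of_eq (by ring)
      · have h10 := ineq_Desc (z := 2 * s + 1) 1 le_rfl hQ h0 (by linarith) h8 h9 le_rfl
          (by omega)
        rw [Nat.cast_one, div_one] at h10
        have h11 : 1 ≤ Q ^ D * Real.exp (((2 * s + 1 : ℕ) : ℝ) * h) :=
          one_le_mul_of_one_le_of_one_le (one_le_pow₀ hQ) (Real.one_le_exp (by positivity))
        calc _ ≤ (Q ^ D * Real.exp (((2 * s + 1 : ℕ) : ℝ) * h)) ^ 2 ^ (D + 1) :=
              pow_le_pow_right₀ h11 hF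
          _ < ((q : ℝ) ^ (S * (M + 1))) ^ 2 ^ (D + 1) :=
              pow_lt_pow_left₀ h10 (by linarith) (by positivity)
          _ = _ := by rw [← pow_mul]; congr 1; ring
    obtain ⟨η', j', -, hf'⟩ := hC2.dec
    have hM : 2 * (M / 2) ≤ M := Nat.mul_div_le M 2
    have hM2 : ((M + 1 : ℕ) : ℝ) ≤ 2 * (M / 2 + 1 : ℕ) := by
      exact_mod_cast (by omega : M + 1 ≤ 2 * (M / 2 + 1))
    refine ih (J / 2) A' y' (h / 2) (2 * S) (M / 2) hne (fun i hi => hc i (hA' hi)) hC2
      (hB.mono hA' (Nat.mul_le_mul_left _ (Nat.div_le_self M 2))) (low_Desc h1 hf' h7 ?_)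
      (by omega) (by linarith) ?_ ?_ ?_ ?_
    · calc 2 * (D + 2) * (M / 2) = (D + 2) * (2 * (M / 2)) := by ring
        _ ≤ (D + 2) * M := by gcongr
    · rw [pow_succ] at h3h
      linarith
    · refine le_trans ?_ hk
      calc 2 ^ (D + 1) * (2 * S) * (M / 2 + 2 ^ R)
          = 2 ^ (D + 1) * S * (2 * (M / 2) + 2 ^ (R + 1)) := by ring
        _ ≤ _ := by gcongr
    · nlinarith
    · refine h9.trans_le ?_
      have : (S : ℝ) * (M + 1 : ℕ) ≤ S * (2 * (M / 2 + 1 : ℕ)) := by gcongr
      rw [Nat.cast_mul, Nat.cast_ofNat]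
      nlinarith

end Pool.Agent.MP_3d0a02_nt.R
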