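import Pool.Agent.MP_3d0a02_nt.R.Val

/-!
From a short sum of like powers to a congruence between two powers, and the size bound.
-/

open Finset

namespace Pool.Agent.MP_3d0a02_nt.R

theorem pow_ite {p j k : ℕ} (hp : p.Prime) (hk : (p ^ j).totient ∣ k) (hj : j ≤ k) (x : ℕ) :
    ((x ^ k : ℕ) : ZMod (p ^ j)) = if ¬ p ∣ x then 1 else 0 := by
  split_ifs with h
  · exact (ZMod.natCast_eq_zero_iff _ _).2 ((pow_dvd_pow p hj).trans (pow_dvd_pow_of_dvd h k))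
  · obtain ⟨t, rfl⟩ := hk
    have h1 := (Nat.ModEq.pow_totient
      (Nat.Coprime.pow_right j ((Nat.Prime.coprime_iff_not_dvd hp).2 h).symm)).pow t
    rw [one_pow, ← pow_mul] at h1
    rw [(ZMod.natCast_eq_natCast_iff _ _ _).2 h1, Nat.cast_one]

theorem two_term {p j k n : ℕ} (hp : p.Prime) (hk : (p ^ j).totient ∣ k) (hj : j ≤ k)
    (n2 : 2 ≤ n) (hn : n < p ^ j) (b : ℕ) : ∀ a : Fin n → ℕ, (∀ i, 0 < a i) →
    ∑ i, a i ^ k = b ^ k → ∃ x y : ℕ, 1 ≤ x ∧ x < y ∧ y ≤ b ∧ ¬ p ∣ x ∧ ¬ p ∣ y ∧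
      x ^ k ≡ y ^ k [MOD p ^ k] := by
  classical
  induction b using Nat.strong_induction_on with
  | _ b ih =>
    intro a ha hs
    have hnt : Nontrivial (Fin n) := Fin.nontrivial_iff_two_le.2 n2
    have lt : ∀ i, a i < b := fun i => by
      obtain ⟨i', hi'⟩ := exists_ne i
      refine lt_of_pow_lt_pow_left₀ k (Nat.zero_le _) ?_
      rw [← hs]
      exact single_lt_sum (f := fun l => a l ^ k) hi' (mem_univ _) (mem_univ _) (pow_pos (ha i') k)
        fun _ _ _ => Nat.zero_le _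
    have e1 : ((univ.filter fun i => ¬ p ∣ a i).card : ZMod (p ^ j)) =
        if ¬ p ∣ b then 1 else 0 := by
      rw [← pow_ite hp hk hj, ← hs, Nat.cast_sum, sum_congr rfl fun i _ => pow_ite hp hk hj (a i),
        sum_boole]
    have e2 : (univ.filter fun i => ¬ p ∣ a i).card < p ^ j :=
      ((card_filter_le _ _).trans (by simp)).trans_lt hn
    by_cases hb : p ∣ b
    · rw [if_neg (not_not.2 hb), ZMod.natCast_eq_zero_iff] at e1
      have e3 := card_eq_zero.1 (Nat.eq_zero_of_dvd_of_lt e1 e2)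
      have e4 : ∀ i, p ∣ a i := fun i => not_not.1 (filter_eq_empty_iff.1 e3 (mem_univ i))
      choose a' ha' using e4
      obtain ⟨b', rfl⟩ := hb
      have b0 : 0 < b' := by
        have := lt ⟨0, by omega⟩
        rcases Nat.eq_zero_or_pos b' with rfl | h
        · omega
        · exact h
      have b1 : b' < p * b' := by nlinarith [hp.two_le]
      obtain ⟨x, y, h1, h2, h3, h4⟩ := ih b' b1 a' (fun i => by
        have := ha i
        rw [ha' i] at this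
        exact Nat.pos_of_mul_pos_left this) (by
        refine Nat.eq_of_mul_eq_mul_left (pow_pos hp.pos k) ?_
        rw [← mul_pow, ← hs, mul_sum]
        exact sum_congr rfl fun i _ => by rw [← mul_pow, ← ha' i])
      exact ⟨x, y, h1, h2, h3.trans b1.le, h4⟩
    · rw [if_pos hb, ← Nat.cast_one, ZMod.natCast_eq_natCast_iff] at e1
      have e3 := Nat.ModEq.eq_of_lt_of_lt e1 e2 (by omega)
      obtain ⟨i, hi⟩ := card_eq_one.1 e3
      have e4 : ∀ l, ¬ p ∣ a l ↔ l = i := fun l => by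
        rw [← mem_singleton, ← hi, mem_filter]
        simp
      refine ⟨a i, b, ha i, lt i, le_rfl, (e4 i).2 rfl, hb, ?_⟩
      rw [← hs, ← add_sum_erase _ _ (mem_univ i)]
      refine ((Nat.modEq_iff_dvd' (Nat.le_add_right _ _)).2 ?_)
      rw [Nat.add_sub_cancel_left]
      refine dvd_sum fun l hl => pow_dvd_pow_of_dvd ?_ k
      by_contra h
      exact (mem_erase.1 hl).1 ((e4 l).1 h)

theorem val_half {p k : ℕ} (hp : p.Prime) (k0 : 0 < k) : 2 * padicValNat p k ≤ k := by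
  have h1 : p ^ padicValNat p k ≤ k := Nat.le_of_dvd k0 pow_padicValNat_dvd
  have h2 : 2 ^ padicValNat p k ≤ p ^ padicValNat p k := Nat.pow_le_pow_left hp.two_le _
  have h3 : ∀ v : ℕ, 2 * v ≤ 2 ^ v := fun v => by
    rcases v with _ | v
    · simp
    · have : v < 2 ^ v := Nat.lt_two_pow_self
      rw [pow_succ]
      omega
  exact (h3 _).trans (h2.trans h1)

theorem lift_odd {p k x y : ℕ} (hp : p.Prime) (p2 : p ≠ 2) (hk : p - 1 ∣ k) (k0 : 0 < k)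
    (hxy : x < y) (hx : ¬ p ∣ x) (hy : ¬ p ∣ y) (h : x ^ k ≡ y ^ k [MOD p ^ k]) :
    ∃ w, k ≤ 2 * w ∧ x ^ (p - 1) ≡ y ^ (p - 1) [MOD p ^ w] := by
  have := Fact.mk hp
  obtain ⟨t, ht⟩ := hk
  have q2 := hp.two_le
  have t0 : t ≠ 0 := by
    rintro rfl
    omega
  have l1 : x ^ (p - 1) < y ^ (p - 1) := Nat.pow_lt_pow_left hxy (by omega)
  have l2 : x ^ k < y ^ k := Nat.pow_lt_pow_left hxy k0.ne'
  have e1 := padicValNat.pow_sub_pow (p := p) (hp.odd_of_ne_two p2) l1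
    ((Nat.modEq_iff_dvd' l1.le).1 ((fermat_one hp hx).trans (fermat_one hp hy).symm))
    (fun e => hy (hp.dvd_of_dvd_pow e)) t0
  rw [← pow_mul, ← pow_mul, ← ht] at e1
  have e2 := (padicValNat_dvd_iff_le (p := p) (Nat.sub_ne_zero_of_lt l2)).1
    ((Nat.modEq_iff_dvd' l2.le).1 h)
  have e3 := val_half hp (Nat.pos_of_ne_zero t0)
  have e4 : t ≤ k := Nat.le_of_dvd k0 ⟨p - 1, by rw [ht, mul_comm]⟩
  exact ⟨padicValNat p (y ^ (p - 1) - x ^ (p - 1)), by omega,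
    (Nat.modEq_iff_dvd' l1.le).2 pow_padicValNat_dvd⟩

theorem lift_two {k x y : ℕ} (hk : Even k) (k0 : 0 < k)
    (hxy : x < y) (hx : ¬ 2 ∣ x) (hy : ¬ 2 ∣ y) (h : x ^ k ≡ y ^ k [MOD 2 ^ k]) :
    ∃ w, k ≤ 2 * w ∧ x ^ 2 ≡ y ^ 2 [MOD 2 ^ w] := by
  have l1 : x ^ 2 < y ^ 2 := Nat.pow_lt_pow_left hxy two_ne_zero
  have l2 : x ^ k < y ^ k := Nat.pow_lt_pow_left hxy k0.ne'
  have e1 := padicValNat.pow_two_sub_pow hxy (by omega) hy k0.ne' hk
  have e2 := (padicValNat_dvd_iff_le (p := 2) (Nat.sub_ne_zero_of_lt l2)).1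
    ((Nat.modEq_iff_dvd' l2.le).1 h)
  have e3 := val_half Nat.prime_two k0
  refine ⟨padicValNat 2 (y + x) + padicValNat 2 (y - x), by omega,
    (Nat.modEq_iff_dvd' l1.le).2 ?_⟩
  rw [Nat.sq_sub_sq, pow_add]
  exact mul_dvd_mul pow_padicValNat_dvd pow_padicValNat_dvd

theorem elem_bound {p r w k x y : ℕ} (p2 : 2 ≤ p) (r0 : 0 < r) (hr : r ≤ p) (hw : k ≤ 2 * w)
    (hxy : x < y) (h : x ^ r ≡ y ^ r [MOD p ^ w]) : (k : ℝ) ≤ 4 * p * Real.log y := by
  have l1 : x ^ r < y ^ r := Nat.pow_lt_pow_left hxy r0.ne'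
  have e1 := Nat.le_of_dvd (Nat.sub_pos_of_lt l1) ((Nat.modEq_iff_dvd' l1.le).1 h)
  have e2 : 2 ^ w ≤ y ^ p := (Nat.pow_le_pow_left p2 w).trans
    (e1.trans ((Nat.sub_le _ _).trans (Nat.pow_le_pow_right (by omega) hr)))
  have e3 : (2 : ℝ) ^ w ≤ (y : ℝ) ^ p := by exact_mod_cast e2
  have e4 := Real.log_le_log (by positivity) e3
  rw [Real.log_pow, Real.log_pow] at e4
  have e5 : (k : ℝ) ≤ 2 * w := by exact_mod_cast hw
  have e6 := Real.log_two_gt_d9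
  have e7 : (0 : ℝ) ≤ w := Nat.cast_nonneg _
  nlinarith

theorem size_bound (hV : VALr) : ∃ c : ℝ, 0 < c ∧ ∃ k₀ : ℕ, ∀ k : ℕ, k₀ ≤ k →
    ∀ p j : ℕ, p.Prime → (p ^ j).totient ∣ k → ∀ n : ℕ, 2 ≤ n → n < p ^ j →
    ∀ (a : Fin n → ℕ) (b : ℕ), (∀ i, 0 < a i) → ∑ i, a i ^ k = b ^ k →
    Real.exp ((k : ℝ) ^ c) ≤ b := by
  obtain ⟨c, hc, q₀, hV⟩ := hV
  have d0 : 0 < min (c / 2) (1 / 4) := lt_min (by linarith) (by norm_num)
  have d1 := min_le_left (c / 2) (1 / 4)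
  have d2 := min_le_right (c / 2) (1 / 4)
  generalize min (c / 2) (1 / 4) = d at d0 d1 d2
  obtain ⟨k₀, hk₀⟩ := Filter.eventually_atTop.1
    (((tendsto_rpow_atTop d0).comp tendsto_natCast_atTop_atTop).eventually_gt_atTop (q₀ + 4))
  refine ⟨d, d0, max k₀ 1, fun k hk p j hp hd n n2 hn a b ha hs => ?_⟩
  have k0 : 0 < k := (le_max_right _ _).trans hk
  have hx : (q₀ : ℝ) + 4 < (k : ℝ) ^ d := hk₀ k ((le_max_left _ _).trans hk)
  have p2 := hp.two_le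
  obtain ⟨j, rfl⟩ : ∃ i, j = i + 1 := by
    rcases j with _ | j
    · rw [pow_zero] at hn
      omega
    · exact ⟨j, rfl⟩
  have e0 := Nat.totient_prime_pow_succ hp j
  have e1 : p - 1 ∣ k := (Dvd.intro_left _ e0.symm).trans hd
  have e2 : j + 1 ≤ k := by
    have h1 := Nat.le_of_dvd k0 hd
    have h2 : j < p ^ j := Nat.lt_pow_self (by omega)
    have h3 : p ^ j * 1 ≤ p ^ j * (p - 1) := Nat.mul_le_mul_left _ (by omega)
    omega
  obtain ⟨x, y, h1, h2, h3, h4, h5, h6⟩ := two_term hp hd e2 n2 hn b a ha hs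
  have y0 : (0 : ℝ) < y := by exact_mod_cast (by omega : 0 < y)
  refine ((Real.le_log_iff_exp_le y0).1 ?_).trans (by exact_mod_cast h3)
  have q0 : (0 : ℝ) ≤ q₀ := Nat.cast_nonneg _
  have k1 : (1 : ℝ) ≤ k := by exact_mod_cast k0
  have p0 : (0 : ℝ) < p := by exact_mod_cast hp.pos
  have el : (k : ℝ) ≤ 4 * p * Real.log y := by
    by_cases h : p = 2
    · subst h
      have ev : Even k := by
        rcases j with _ | j
        · omega
        · rw [e0] at hd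
          exact (even_iff_two_dvd).2 (((dvd_pow_self 2 (by omega)).mul_right _).trans hd)
      obtain ⟨w, hw, h7⟩ := lift_two ev k0 h2 h4 h5 h6
      exact elem_bound le_rfl two_pos le_rfl hw h2 h7
    · obtain ⟨w, hw, h7⟩ := lift_odd hp h e1 k0 h2 h4 h5 h6
      exact elem_bound p2 (by omega) (Nat.sub_le _ _) hw h2 h7
  by_contra hlt
  rw [not_le] at hlt
  have s1 : (k : ℝ) ^ d * (k : ℝ) ^ d ≤ (k : ℝ) ^ (1 / 2 : ℝ) := by
    rw [← Real.rpow_add (by linarith)]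
    exact Real.rpow_le_rpow_of_exponent_le k1 (by linarith)
  have s2 : (k : ℝ) ^ (1 / 2 : ℝ) * (k : ℝ) ^ (1 / 2 : ℝ) = k := by
    rw [← Real.rpow_add (by linarith)]
    norm_num
  have s0 : 0 < (k : ℝ) ^ (1 / 2 : ℝ) := Real.rpow_pos_of_pos (by linarith) _
  have s3 : (k : ℝ) ^ (1 / 2 : ℝ) < p := by
    refine lt_of_mul_lt_mul_right ?_ s0.le
    rw [s2]
    have : 4 * Real.log y < (k : ℝ) ^ (1 / 2 : ℝ) := by nlinarith
    nlinarith
  have s4 : (k : ℝ) ^ d ≤ (p : ℝ) ^ c := by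
    calc (k : ℝ) ^ d ≤ (k : ℝ) ^ (1 / 2 * c) := Real.rpow_le_rpow_of_exponent_le k1 (by linarith)
      _ = ((k : ℝ) ^ (1 / 2 : ℝ)) ^ c := Real.rpow_mul (by linarith) _ _
      _ ≤ _ := Real.rpow_le_rpow s0.le s3.le hc.le
  have s5 : (q₀ : ℝ) + 4 < p := by nlinarith
  have s6 : q₀ + 4 < p := by exact_mod_cast s5
  obtain ⟨w, hw, h7⟩ := lift_odd hp (by omega) e1 k0 h2 h4 h5 h6
  have s7 := hV p hp (by omega) x y h1 h2 h4 h5 (hlt.le.trans s4) w h7
  rw [Real.rpow_sub p0, Real.rpow_one, le_div_iff₀ (Real.rpow_pos_of_pos p0 _)] at s7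
  have s8 : (p : ℝ) ≤ 4 * w := by
    have := Nat.le_of_dvd k0 e1
    exact_mod_cast (by omega : p ≤ 4 * w)
  have s9 : (0 : ℝ) < w := by linarith
  nlinarith

end Pool.Agent.MP_3d0a02_nt.R
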